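import Pool.Agent.Helper84.AA.Defs

/-!
# EX, leaves E1 - E4 (MP_de89cc_ag, MP_09799c_ag): the polynomial `ww` and its Frobenius polynomial
-/

set_option autoImplicit false

open Polynomial

namespace Pool.Agent.Helper19.EX

open Pool.Agent.Helper84.AA

/-- `(T - 1) (T ^ 3 - 3 q T - q)`: `frob` is `(T ^ 2 - T + q) (T ^ 6 - q T ^ 3 + q ^ 3)`. -/
noncomputable def ww (q : ℕ) : ℤ[X] := (X - 1) * (X ^ 3 - C (3 * (q : ℤ)) * X - C (q : ℤ))

/-- E1: closed under multiplication. -/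
theorem isTrace_mul {q m n : ℕ} {u v : ℤ[X]} (hu : IsTrace q m u) (hv : IsTrace q n v) :
    IsTrace q (m + n) (u * v) := by
  refine ⟨hu.1.mul hv.1, ?_, ?_⟩
  · rw [hu.1.natDegree_mul hv.1, hu.2.1, hv.2.1]
  · intro z hz
    rw [map_mul, mul_eq_zero] at hz
    rcases hz with hz | hz
    · exact hu.2.2 z hz
    · exact hv.2.2 z hz

theorem monic_lin : (X - 1 : ℤ[X]).Monic := by
  have := monic_X_sub_C (1 : ℤ)
  rwa [C_1] at this

theorem natDegree_lin : (X - 1 : ℤ[X]).natDegree = 1 := by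
  have := natDegree_X_sub_C (1 : ℤ)
  rwa [C_1] at this

theorem natDegree_cub (q : ℕ) :
    (X ^ 3 - C (3 * (q : ℤ)) * X - C (q : ℤ) : ℤ[X]).natDegree = 3 := by
  compute_degree!

theorem monic_cub (q : ℕ) : (X ^ 3 - C (3 * (q : ℤ)) * X - C (q : ℤ) : ℤ[X]).Monic := by
  rw [Monic, leadingCoeff, natDegree_cub]
  simp [coeff_X, coeff_C]

theorem isTrace_lin {q : ℕ} (hq : 1 ≤ q) : IsTrace q 1 (X - 1) := by
  refine ⟨monic_lin, natDegree_lin, fun z hz => ⟨1, ?_, ?_⟩⟩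
  · simp only [map_sub, aeval_X, map_one] at hz
    have := sub_eq_zero.1 hz
    rw [this]
    simp
  · have h1 : (1 : ℝ) ≤ q := by exact_mod_cast hq
    linarith

theorem isTrace_cub {q : ℕ} (hq : 1 ≤ q) :
    IsTrace q 3 (X ^ 3 - C (3 * (q : ℤ)) * X - C (q : ℤ)) := by
  refine ⟨monic_cub q, natDegree_cub q, ?_⟩
  have hq1 : (1 : ℝ) ≤ q := by exact_mod_cast hq
  set s := √(q : ℝ) with hs
  have hs0 : 0 ≤ s := Real.sqrt_nonneg _
  have hss : s * s = q := Real.mul_self_sqrt (by linarith)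
  have hs1 : 1 ≤ s := by
    rw [hs]
    exact Real.one_le_sqrt.2 hq1
  -- one root
  obtain ⟨x0, hx0, hr0⟩ : ∃ x ∈ Set.Icc (0 : ℝ) (2 * s), x ^ 3 - 3 * q * x - q = 0 := by
    have hc : ContinuousOn (fun x : ℝ => x ^ 3 - 3 * q * x - q) (Set.Icc 0 (2 * s)) := by fun_prop
    have h1 := intermediate_value_Icc (by linarith : (0 : ℝ) ≤ 2 * s) hc
    have h2 : (0 : ℝ) ∈ Set.Icc ((fun x : ℝ => x ^ 3 - 3 * q * x - q) 0)
        ((fun x : ℝ => x ^ 3 - 3 * q * x - q) (2 * s)) := by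
      constructor
      · simp only
        nlinarith
      · simp only
        rw [← hss]
        nlinarith [mul_nonneg hs0 hs0, mul_nonneg (mul_nonneg hs0 hs0) (by linarith : 0 ≤ s - 1)]
    obtain ⟨x, hx, hx2⟩ := h1 h2
    exact ⟨x, hx, hx2⟩
  have hx0sq : x0 ^ 2 ≤ 4 * q := by
    rw [← hss]
    nlinarith [hx0.1, hx0.2]
  intro z hz
  have hz1 : z ^ 3 - 3 * q * z - q = 0 := by
    have h1 : aeval z (X ^ 3 - C (3 * (q : ℤ)) * X - C (q : ℤ) : ℤ[X]) =
        z ^ 3 - 3 * q * z - q := by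
      rw [map_sub, map_sub, map_pow, map_mul, aeval_X, aeval_C, aeval_C, eq_intCast, eq_intCast]
      push_cast
      ring
    rw [← h1, hz]
  have hr0' : (x0 : ℂ) ^ 3 - 3 * q * x0 - q = 0 := by exact_mod_cast hr0
  have hfac : (z - x0) * (z ^ 2 + x0 * z + x0 ^ 2 - 3 * q) = 0 := by
    linear_combination hz1 - hr0'
  rcases mul_eq_zero.1 hfac with h | h
  · exact ⟨x0, (sub_eq_zero.1 h).symm, hx0sq⟩
  · set t := √(12 * q - 3 * x0 ^ 2) with ht
    have htt : t * t = 12 * q - 3 * x0 ^ 2 := Real.mul_self_sqrt (by linarith)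
    have htt' : (t : ℂ) * t = 12 * q - 3 * x0 ^ 2 := by exact_mod_cast htt
    have hsq : (2 * z + x0 - t) * (2 * z + x0 + t) = 0 := by
      linear_combination 4 * h - htt'
    have key : ∀ x : ℝ, (x : ℂ) = z → ∃ x : ℝ, (x : ℂ) = z ∧ x ^ 2 ≤ 4 * q := by
      intro x hx
      refine ⟨x, hx, ?_⟩
      rw [← hx] at h
      have h2 : x ^ 2 + x0 * x + x0 ^ 2 - 3 * q = 0 := by exact_mod_cast h
      nlinarith [sq_nonneg (2 * x0 + x)]
    rcases mul_eq_zero.1 hsq with h3 | h3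
    · refine key ((t - x0) / 2) ?_
      push_cast
      linear_combination (-1 / 2 : ℂ) * h3
    · refine key ((-t - x0) / 2) ?_
      push_cast
      linear_combination (-1 / 2 : ℂ) * h3

/-- E2 (all roots real). -/
theorem isTrace_ww {q : ℕ} (hq : 1 ≤ q) : IsTrace q 4 (ww q) :=
  isTrace_mul (isTrace_lin hq) (isTrace_cub hq)

theorem frob_eval (q : ℕ) (h : ℤ[X]) :
    algebraMap ℤ[X] (FractionRing ℤ[X]) (frob q h) =
      (algebraMap ℤ[X] (FractionRing ℤ[X]) X) ^ h.natDegree *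
        h.eval₂ ((algebraMap ℤ[X] (FractionRing ℤ[X])).comp C)
          (algebraMap ℤ[X] (FractionRing ℤ[X]) X +
            algebraMap ℤ[X] (FractionRing ℤ[X]) (C (q : ℤ)) /
              algebraMap ℤ[X] (FractionRing ℤ[X]) X) := by
  set f := algebraMap ℤ[X] (FractionRing ℤ[X]) with hf
  have hinj : Function.Injective f := IsFractionRing.injective ℤ[X] (FractionRing ℤ[X])
  have hT : f X ≠ 0 := by
    rw [Ne, map_eq_zero_iff f hinj]
    exact X_ne_zero
  unfold frob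
  rw [map_sum, eval₂_eq_sum_range, Finset.mul_sum]
  refine Finset.sum_congr rfl fun j hj => ?_
  have hj' : j ≤ h.natDegree := by
    rw [Finset.mem_range] at hj
    omega
  have h1 : f X ^ h.natDegree = f X ^ (h.natDegree - j) * f X ^ j := by
    rw [← pow_add, Nat.sub_add_cancel hj']
  have h2 : f X * (f X + f (C (q : ℤ)) / f X) = f (X ^ 2 + C (q : ℤ)) := by
    rw [map_add, map_pow]
    field_simp
  rw [map_mul, map_mul, map_pow, map_pow, ← h2, mul_pow, h1, RingHom.comp_apply]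
  ring

/-- E3. -/
theorem frob_mul (q : ℕ) {u v : ℤ[X]} (hu : u.Monic) (hv : v.Monic) :
    frob q (u * v) = frob q u * frob q v := by
  have hinj : Function.Injective (algebraMap ℤ[X] (FractionRing ℤ[X])) :=
    IsFractionRing.injective ℤ[X] (FractionRing ℤ[X])
  apply hinj
  rw [map_mul, frob_eval, frob_eval, frob_eval, hu.natDegree_mul hv, eval₂_mul, pow_add]
  ring

/-- E4. -/
theorem frob_ww (q : ℕ) :
    frob q (ww q) = (X ^ 2 - X + C (q : ℤ)) * (X ^ 6 - C (q : ℤ) * X ^ 3 + C ((q : ℤ) ^ 3)) := by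
  unfold ww
  rw [frob_mul q monic_lin (monic_cub q)]
  have h1 : frob q (X - 1) = X ^ 2 - X + C (q : ℤ) := by
    unfold frob
    rw [natDegree_lin, Finset.sum_range_succ, Finset.sum_range_succ, Finset.sum_range_zero]
    have e0 : (X - 1 : ℤ[X]).coeff 0 = -1 := by simp
    have e1 : (X - 1 : ℤ[X]).coeff 1 = 1 := by simp [coeff_one]
    rw [e0, e1]
    simp only [map_neg, map_one]
    ring
  have h2 : frob q (X ^ 3 - C (3 * (q : ℤ)) * X - C (q : ℤ)) =
      X ^ 6 - C (q : ℤ) * X ^ 3 + C ((q : ℤ) ^ 3) := by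
    unfold frob
    rw [natDegree_cub, Finset.sum_range_succ, Finset.sum_range_succ, Finset.sum_range_succ,
      Finset.sum_range_succ, Finset.sum_range_zero]
    have e0 : (X ^ 3 - C (3 * (q : ℤ)) * X - C (q : ℤ) : ℤ[X]).coeff 0 = -q := by simp
    have e1 : (X ^ 3 - C (3 * (q : ℤ)) * X - C (q : ℤ) : ℤ[X]).coeff 1 = -(3 * q) := by
      simp [coeff_X_pow]
    have e2 : (X ^ 3 - C (3 * (q : ℤ)) * X - C (q : ℤ) : ℤ[X]).coeff 2 = 0 := by
      simp [coeff_X_pow, coeff_C, coeff_X]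
    have e3 : (X ^ 3 - C (3 * (q : ℤ)) * X - C (q : ℤ) : ℤ[X]).coeff 3 = 1 := by
      simp [coeff_X_pow, coeff_C, coeff_X]
    rw [e0, e1, e2, e3]
    simp only [map_neg, map_one, map_mul, map_zero, C_pow]
    have e5 : (C (3 : ℤ) : ℤ[X]) = 3 := rfl
    rw [e5]
    ring
  rw [h1, h2]

end Pool.Agent.Helper19.EX
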